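import Mathlib

namespace Pool.Agent.Results.MP_b3a091_al.InfiniteFactors

universe u

/-- `A` and `B` form an exact factorization of the group `G`: every element of `G` is `a * b`
for exactly one pair `(a, b)` with `a ∈ A` and `b ∈ B`. -/
def IsExactFactorization {G : Type u} [Group G] (A B : Set G) : Prop :=
  ∀ g : G, ∃! p : G × G, p.1 ∈ A ∧ p.2 ∈ B ∧ p.1 * p.2 = g

/-- `G` has an exact factorization into two infinite subsets. -/
def HasInf (G : Type u) [Group G] : Prop :=
  ∃ A B : Set G, A.Infinite ∧ B.Infinite ∧ IsExactFactorization A B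

theorem mk_exact {G : Type u} [Group G] {A B : Set G}
    (h1 : ∀ g : G, ∃ a ∈ A, ∃ b ∈ B, a * b = g)
    (h2 : ∀ a ∈ A, ∀ a' ∈ A, ∀ b ∈ B, ∀ b' ∈ B, a * b = a' * b' → a = a' ∧ b = b') :
    IsExactFactorization A B := by
  intro g
  obtain ⟨a, ha, b, hb, hab⟩ := h1 g
  refine ⟨(a, b), ⟨ha, hb, hab⟩, ?_⟩
  rintro ⟨a', b'⟩ ⟨ha', hb', hab'⟩
  obtain ⟨h, h'⟩ := h2 a' ha' a ha b' hb' b hb (by simpa [hab] using hab')
  simp [h, h']

theorem exact_iff {G : Type u} [Group G] {A B : Set G} (h : IsExactFactorization A B) :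
    (∀ g : G, ∃ a ∈ A, ∃ b ∈ B, a * b = g) ∧
    (∀ a ∈ A, ∀ a' ∈ A, ∀ b ∈ B, ∀ b' ∈ B, a * b = a' * b' → a = a' ∧ b = b') := by
  constructor
  · intro g
    obtain ⟨p, ⟨h1, h2, h3⟩, -⟩ := h g
    exact ⟨p.1, h1, p.2, h2, h3⟩
  · intro a ha a' ha' b hb b' hb' hab
    obtain ⟨p, -, h4⟩ := h (a * b)
    have e1 := h4 (a, b) ⟨ha, hb, rfl⟩
    have e2 := h4 (a', b') ⟨ha', hb', hab.symm⟩
    have e3 : (a, b) = (a', b') := e1.trans e2.symm
    exact ⟨(Prod.mk.inj e3).1, (Prod.mk.inj e3).2⟩

section Greedy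

variable {G : Type u} [Group G]

/-- The product map is injective on `A × B`. -/
def Good (A B : Finset G) : Prop :=
  ∀ a ∈ A, ∀ a' ∈ A, ∀ b ∈ B, ∀ b' ∈ B, a * b = a' * b' → a = a' ∧ b = b'

theorem extend [Infinite G] (hsq : ∀ h : G, h ≠ 1 → {c : G | c * c = h}.Finite)
    {A B : Finset G} (hAB : Good A B) {g : G} (hg : ∀ a ∈ A, ∀ b ∈ B, a * b ≠ g) :
    ∃ a b : G, a ∉ A ∧ b ∉ B ∧ a * b = g ∧
      (∀ x, x = a ∨ x ∈ A → ∀ x', x' = a ∨ x' ∈ A → ∀ y, y = b ∨ y ∈ B →
        ∀ y', y' = b ∨ y' ∈ B → x * y = x' * y' → x = x' ∧ y = y') := by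
  classical
  -- the finite set of values to avoid
  set S1 : Set G := ↑B with hS1
  set S2 : Set G := (fun a : G => a⁻¹ * g) '' (↑A : Set G) with hS2
  set S3 : Set G := (fun p : G × G × G => (g⁻¹ * p.1 * p.2.1 * p.2.2⁻¹)⁻¹) ''
    ((↑A : Set G) ×ˢ ((↑B : Set G) ×ˢ (↑B : Set G))) with hS3
  set S4 : Set G := ⋃ p ∈ (↑A : Set G) ×ˢ (↑B : Set G),
    (fun c : G => p.2 * c⁻¹) '' {c : G | c * c = g⁻¹ * p.1 * p.2} with hS4
  set S5 : Set G := (fun p : G × G × G => p.1⁻¹ * p.2.1 * p.2.2) ''
    ((↑A : Set G) ×ˢ ((↑A : Set G) ×ˢ (↑B : Set G))) with hS5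
  have f1 : S1.Finite := B.finite_toSet
  have f2 : S2.Finite := A.finite_toSet.image _
  have f3 : S3.Finite :=
    (A.finite_toSet.prod (B.finite_toSet.prod B.finite_toSet)).image _
  have f4 : S4.Finite := by
    refine (A.finite_toSet.prod B.finite_toSet).biUnion ?_
    rintro ⟨a, b⟩ ⟨ha, hb⟩
    refine (hsq _ ?_).image _
    intro h
    apply hg a ha b hb
    have : g⁻¹ * (a * b) = 1 := by simpa [mul_assoc] using h
    exact (inv_mul_eq_one.mp this).symm
  have f5 : S5.Finite :=
    (A.finite_toSet.prod (A.finite_toSet.prod B.finite_toSet)).image _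
  obtain ⟨b, hb⟩ := ((((f1.union f2).union f3).union f4).union f5).exists_notMem
  simp only [Set.mem_union, not_or] at hb
  obtain ⟨⟨⟨⟨n1, n2⟩, n3⟩, n4⟩, n5⟩ := hb
  have n1' : b ∉ B := by simpa [hS1] using n1
  have n2' : ∀ a ∈ A, a * b ≠ g := by
    intro a ha h
    apply n2
    exact ⟨a, ha, by simp [← h]⟩
  have n3' : ∀ a ∈ A, ∀ y ∈ B, ∀ y' ∈ B, g * b⁻¹ * y' ≠ a * y := by
    intro a ha y hy y' hy' h
    apply n3
    refine ⟨(a, y, y'), ⟨ha, hy, hy'⟩, ?_⟩
    have : b⁻¹ = g⁻¹ * a * y * y'⁻¹ := by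
      rw [mul_assoc g⁻¹ a y, ← h]; group
    simp only
    rw [← this, inv_inv]
  have n4' : ∀ a ∈ A, ∀ y ∈ B, g * b⁻¹ * y ≠ a * b := by
    intro a ha y hy h
    apply n4
    simp only [hS4, Set.mem_iUnion]
    refine ⟨(a, y), ⟨ha, hy⟩, b⁻¹ * y, ?_, by group⟩
    simp only [Set.mem_ofPred_eq]
    have : a = g * b⁻¹ * y * b⁻¹ := by rw [h]; group
    rw [this]; group
  have n5' : ∀ a ∈ A, ∀ a' ∈ A, ∀ y ∈ B, a * b ≠ a' * y := by
    intro a ha a' ha' y hy h
    apply n5
    refine ⟨(a, a', y), ⟨ha, ha', hy⟩, ?_⟩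
    simp only
    rw [mul_assoc, ← h]; group
  refine ⟨g * b⁻¹, b, ?_, n1', by group, ?_⟩
  · intro h
    exact n2' _ h (by group)
  · rintro x (rfl | hx) x' (rfl | hx') y (rfl | hy) y' (rfl | hy') h
    · exact ⟨rfl, rfl⟩
    · exact ⟨rfl, mul_left_cancel h⟩
    · exact ⟨rfl, mul_left_cancel h⟩
    · exact ⟨rfl, mul_left_cancel h⟩
    · exact absurd (h.symm.trans (by group)) (n2' x' hx')
    · exact absurd (h.symm.trans (by group)) (hg x' hx' y' hy')
    · exact absurd h (n4' x' hx' y hy)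
    · exact absurd h (n3' x' hx' y' hy' y hy)
    · exact absurd (h.trans (by group)) (n2' x hx)
    · exact absurd h.symm (n4' x hx y' hy')
    · exact absurd (h.trans (by group)) (hg x hx y hy)
    · exact absurd h.symm (n3' x hx y hy y' hy')
    · exact ⟨mul_right_cancel h, rfl⟩
    · exact absurd h (n5' x hx x' hx' y' hy')
    · exact absurd h.symm (n5' x' hx' x hx y hy)
    · exact hAB x hx x' hx' y hy y' hy' h

/-- One step of the construction. -/
theorem step [Infinite G] (hsq : ∀ h : G, h ≠ 1 → {c : G | c * c = h}.Finite)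
    (s : {p : Finset G × Finset G // Good p.1 p.2}) (g : G) :
    ∃ t : {p : Finset G × Finset G // Good p.1 p.2},
      s.1.1 ⊂ t.1.1 ∧ s.1.2 ⊂ t.1.2 ∧ ∃ a ∈ t.1.1, ∃ b ∈ t.1.2, a * b = g := by
  classical
  -- extension adding a given element outside the product set
  have key : ∀ (s : {p : Finset G × Finset G // Good p.1 p.2}) (g : G),
      (∀ a ∈ s.1.1, ∀ b ∈ s.1.2, a * b ≠ g) →
      ∃ t : {p : Finset G × Finset G // Good p.1 p.2},
      s.1.1 ⊂ t.1.1 ∧ s.1.2 ⊂ t.1.2 ∧ ∃ a ∈ t.1.1, ∃ b ∈ t.1.2, a * b = g := by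
    rintro ⟨⟨A, B⟩, hAB⟩ g hg
    obtain ⟨a, b, ha, hb, hab, H⟩ := extend hsq hAB hg
    refine ⟨⟨(insert a A, insert b B), ?_⟩, Finset.ssubset_insert ha, Finset.ssubset_insert hb,
      a, Finset.mem_insert_self _ _, b, Finset.mem_insert_self _ _, hab⟩
    intro x hx x' hx' y hy y' hy'
    exact H x (Finset.mem_insert.mp hx) x' (Finset.mem_insert.mp hx') y
      (Finset.mem_insert.mp hy) y' (Finset.mem_insert.mp hy')
  by_cases h : ∀ a ∈ s.1.1, ∀ b ∈ s.1.2, a * b ≠ g
  · exact key s g h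
  · push Not at h
    obtain ⟨a, ha, b, hb, hab⟩ := h
    have hfin : ((fun p : G × G => p.1 * p.2) ''
        ((↑s.1.1 : Set G) ×ˢ (↑s.1.2 : Set G))).Finite :=
      (s.1.1.finite_toSet.prod s.1.2.finite_toSet).image _
    obtain ⟨g', hg'⟩ := hfin.exists_notMem
    obtain ⟨t, h1, h2, -⟩ := key s g' (by
      intro a ha b hb h
      exact hg' ⟨(a, b), ⟨ha, hb⟩, h⟩)
    exact ⟨t, h1, h2, a, h1.1 ha, b, h2.1 hb, hab⟩

theorem greedy [Countable G] [Infinite G]
    (hsq : ∀ h : G, h ≠ 1 → {c : G | c * c = h}.Finite) : HasInf G := by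
  classical
  obtain ⟨e, he⟩ := exists_surjective_nat G
  let St := {p : Finset G × Finset G // Good p.1 p.2}
  choose nxt h1 h2 h3 using fun (s : St) (g : G) => step hsq s g
  let s0 : St := ⟨(∅, ∅), by intro a ha; simp at ha⟩
  let s : ℕ → St := fun n => Nat.rec s0 (fun n t => nxt t (e n)) n
  have hs : ∀ n, s (n + 1) = nxt (s n) (e n) := fun n => rfl
  have m1 : StrictMono fun n => (s n).1.1 := strictMono_nat_of_lt_succ fun n => by
    rw [hs]; exact h1 _ _
  have m2 : StrictMono fun n => (s n).1.2 := strictMono_nat_of_lt_succ fun n => by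
    rw [hs]; exact h2 _ _
  have inf : ∀ f : ℕ → Finset G, StrictMono f → (⋃ n, (↑(f n) : Set G)).Infinite := by
    intro f hf hfin
    have : ∀ n, f n ⊆ hfin.toFinset := by
      intro n x hx
      simp only [Set.Finite.mem_toFinset, Set.mem_iUnion]
      exact ⟨n, hx⟩
    have hinj : Function.Injective f := hf.injective
    have hfin2 : (Set.range f).Finite :=
      (hfin.toFinset.powerset.finite_toSet).subset (by
        rintro _ ⟨n, rfl⟩
        simpa using this n)
    exact Set.infinite_range_of_injective hinj hfin2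
  refine ⟨⋃ n, (↑(s n).1.1 : Set G), ⋃ n, (↑(s n).1.2 : Set G), inf _ m1, inf _ m2,
    mk_exact ?_ ?_⟩
  · intro g
    obtain ⟨n, rfl⟩ := he g
    obtain ⟨a, ha, b, hb, hab⟩ := h3 (s n) (e n)
    refine ⟨a, Set.mem_iUnion.mpr ⟨n + 1, ?_⟩, b, Set.mem_iUnion.mpr ⟨n + 1, ?_⟩, hab⟩
    · rw [hs]; exact ha
    · rw [hs]; exact hb
  · intro a ha a' ha' b hb b' hb' h
    rw [Set.mem_iUnion] at ha ha' hb hb'
    obtain ⟨n1, k1⟩ := ha
    obtain ⟨n2, k2⟩ := ha'
    obtain ⟨n3, k3⟩ := hb
    obtain ⟨n4, k4⟩ := hb'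
    set N := max (max n1 n2) (max n3 n4) with hN
    have q1 : n1 ≤ N := le_trans (le_max_left _ _) (le_max_left _ _)
    have q2 : n2 ≤ N := le_trans (le_max_right _ _) (le_max_left _ _)
    have q3 : n3 ≤ N := le_trans (le_max_left _ _) (le_max_right _ _)
    have q4 : n4 ≤ N := le_trans (le_max_right _ _) (le_max_right _ _)
    exact (s N).2 a (m1.monotone q1 k1) a' (m1.monotone q2 k2) b (m2.monotone q3 k3) b'
      (m2.monotone q4 k4) h

end Greedy

section Transfer

variable {G : Type u} [Group G]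

/-- Factorizations pass from a subgroup to the group. -/
theorem of_subgroup (H : Subgroup G) (h : HasInf H) : HasInf G := by
  obtain ⟨A, B, hA, hB, hAB⟩ := h
  obtain ⟨e1, e2⟩ := exact_iff hAB
  refine ⟨{x | ∃ q : G ⧸ H, ∃ a ∈ A, x = q.out * (a : G)}, (fun b : H => (b : G)) '' B,
    ?_, hB.image Subtype.val_injective.injOn, mk_exact ?_ ?_⟩
  · have : (fun a : H => ((1 : G) : G ⧸ H).out * (a : G)) '' A ⊆
        {x | ∃ q : G ⧸ H, ∃ a ∈ A, x = q.out * (a : G)} := by
      rintro _ ⟨a, ha, rfl⟩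
      exact ⟨_, a, ha, rfl⟩
    refine Set.Infinite.mono this (hA.image ?_)
    intro x _ y _ hxy
    exact Subtype.ext (mul_left_cancel hxy)
  · intro g
    have hg : (g : G ⧸ H).out⁻¹ * g ∈ H := by
      have := QuotientGroup.out_eq' (g : G ⧸ H)
      rw [← QuotientGroup.eq]
      exact this
    obtain ⟨a, ha, b, hb, hab⟩ := e1 ⟨_, hg⟩
    refine ⟨(g : G ⧸ H).out * a, ⟨_, a, ha, rfl⟩, b, ⟨b, hb, rfl⟩, ?_⟩
    have := congrArg Subtype.val hab
    simp only [Subgroup.coe_mul] at this
    rw [mul_assoc, this]; group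
  · rintro _ ⟨q, a, ha, rfl⟩ _ ⟨q', a', ha', rfl⟩ _ ⟨b, hb, rfl⟩ _ ⟨b', hb', rfl⟩ h
    simp only at h
    have hq : ∀ (q : G ⧸ H) (a b : H), ((q.out * (a : G) * (b : G) : G) : G ⧸ H) = q := by
      intro q a b
      conv_rhs => rw [← QuotientGroup.out_eq' q]
      rw [QuotientGroup.eq]
      have : (q.out * (a : G) * (b : G))⁻¹ * q.out = (((a * b)⁻¹ : H) : G) := by
        simp only [Subgroup.coe_inv, Subgroup.coe_mul]; group
      rw [this]
      exact SetLike.coe_mem _
    have hqq : q = q' := by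
      rw [← hq q a b, h, hq q' a' b']
    subst hqq
    have h' : (a : G) * b = a' * b' := by
      rw [mul_assoc, mul_assoc] at h
      exact mul_left_cancel h
    obtain ⟨k1, k2⟩ := e2 a ha a' ha' b hb b' hb' (Subtype.ext h')
    subst k1 k2
    exact ⟨rfl, rfl⟩

/-- Factorizations lift from a quotient to the group. -/
theorem of_quotient (N : Subgroup G) [N.Normal] (h : HasInf (G ⧸ N)) : HasInf G := by
  obtain ⟨A, B, hA, hB, hAB⟩ := h
  obtain ⟨e1, e2⟩ := exact_iff hAB
  refine ⟨(fun q : G ⧸ N => q.out) '' A, {g : G | (g : G ⧸ N) ∈ B}, ?_, ?_, mk_exact ?_ ?_⟩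
  · refine hA.image ?_
    intro x _ y _ hxy
    exact Quotient.out_injective hxy
  · refine Set.Infinite.mono (s := (fun q : G ⧸ N => q.out) '' B) ?_ (hB.image ?_)
    · rintro _ ⟨q, hq, rfl⟩
      simp only [Set.mem_ofPred_eq]
      rwa [QuotientGroup.out_eq']
    · intro x _ y _ hxy
      exact Quotient.out_injective hxy
  · intro g
    obtain ⟨a, ha, b, hb, hab⟩ := e1 (g : G ⧸ N)
    refine ⟨a.out, ⟨a, ha, rfl⟩, a.out⁻¹ * g, ?_, by group⟩
    simp only [Set.mem_ofPred_eq, QuotientGroup.mk_mul, QuotientGroup.mk_inv]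
    rw [QuotientGroup.out_eq', ← hab]
    simpa using hb
  · rintro _ ⟨a, ha, rfl⟩ _ ⟨a', ha', rfl⟩ b hb b' hb' h
    simp only at h
    have h' : a * (b : G ⧸ N) = a' * (b' : G ⧸ N) := by
      have := congrArg (fun x : G => (x : G ⧸ N)) h
      simp only [QuotientGroup.mk_mul] at this
      rwa [QuotientGroup.out_eq', QuotientGroup.out_eq'] at this
    obtain ⟨k1, -⟩ := e2 a ha a' ha' _ hb _ hb' h'
    subst k1
    exact ⟨rfl, mul_left_cancel h⟩

/-- An infinite subgroup of infinite index gives a factorization. -/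
theorem of_infinite_index (H : Subgroup G) (h1 : Infinite H) (h2 : Infinite (G ⧸ H)) :
    HasInf G := by
  refine ⟨Set.range (fun q : G ⧸ H => q.out), (H : Set G),
    Set.infinite_range_of_injective Quotient.out_injective, ?_, mk_exact ?_ ?_⟩
  · exact Set.infinite_coe_iff.mp h1
  · intro g
    refine ⟨(g : G ⧸ H).out, ⟨_, rfl⟩, (g : G ⧸ H).out⁻¹ * g, ?_, by group⟩
    show _ ∈ H
    rw [← QuotientGroup.eq]
    exact QuotientGroup.out_eq' _
  · rintro _ ⟨q, rfl⟩ _ ⟨q', rfl⟩ b hb b' hb' h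
    simp only at h
    have hq : ∀ (q : G ⧸ H) (b : G), b ∈ H → ((q.out * b : G) : G ⧸ H) = q := by
      intro q b hb
      conv_rhs => rw [← QuotientGroup.out_eq' q]
      rw [QuotientGroup.eq]
      have : (q.out * b)⁻¹ * q.out = b⁻¹ := by group
      rw [this]
      exact H.inv_mem hb
    have hqq : q = q' := by rw [← hq q b hb, h, hq q' b' hb']
    subst hqq
    exact ⟨rfl, mul_left_cancel h⟩

end Transfer

section Main

/-- Infinite countable abelian groups. -/
theorem of_comm (M : Type u) [CommGroup M] [Countable M] [Infinite M] : HasInf M := by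
  classical
  -- the 2-torsion subgroup
  let T : Subgroup M := (powMonoidHom 2 : M →* M).ker
  have hT : ∀ x : M, x ∈ T ↔ x * x = 1 := by
    intro x
    simp [T, MonoidHom.mem_ker, pow_two]
  by_cases hfin : Finite T
  · apply greedy
    intro h _
    by_cases hne : ∃ c0 : M, c0 * c0 = h
    · obtain ⟨c0, hc0⟩ := hne
      have : {c : M | c * c = h} ⊆ (fun t : T => c0 * (t : M)) '' Set.univ := by
        intro c hc
        have hc' : c * c = h := hc
        have hmem : c0⁻¹ * c ∈ T := by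
          rw [hT]
          calc c0⁻¹ * c * (c0⁻¹ * c) = (c * c) * (c0 * c0)⁻¹ := by
                rw [mul_inv]
                rw [mul_comm c0⁻¹ c, mul_mul_mul_comm]
            _ = 1 := by rw [hc', hc0, mul_inv_cancel]
        exact ⟨⟨_, hmem⟩, trivial, by simp⟩
      exact Set.Finite.subset (Set.finite_univ.image _) this
    · convert Set.finite_empty
      ext c
      simp only [Set.mem_ofPred_eq, Set.mem_empty_iff_false, iff_false]
      exact fun hc => hne ⟨c, hc⟩
  · have : Infinite T := not_finite_iff_infinite.mp hfin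
    apply of_subgroup T
    apply greedy
    intro h hh
    convert Set.finite_empty
    ext c
    simp only [Set.mem_ofPred_eq, Set.mem_empty_iff_false, iff_false]
    intro hc
    apply hh
    rw [← hc]
    exact Subtype.ext ((hT c).mp c.2)

variable {G : Type u} [Group G]

theorem infinite_of_finiteIndex [Infinite G] (H : Subgroup G) (h : H.FiniteIndex) :
    Infinite H := by
  by_contra hc
  have h1 : Finite H := not_infinite_iff_finite.mp hc
  have h2 : Finite (G ⧸ H) := Subgroup.finite_quotient_of_finiteIndex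
  have h3 : Finite G := Finite.of_subgroup_quotient H
  exact not_finite G

/-- The FC-centre. -/
def FC (G : Type u) [Group G] : Subgroup G where
  carrier := {x : G | (Subgroup.centralizer {x}).FiniteIndex}
  one_mem' := by
    have : Subgroup.centralizer {(1 : G)} = ⊤ := by
      ext y; simp [Subgroup.mem_centralizer_singleton_iff]
    rw [Set.mem_ofPred_eq, this]
    infer_instance
  mul_mem' := by
    intro a b ha hb
    rw [Set.mem_ofPred_eq] at ha hb ⊢
    have : Subgroup.centralizer {a} ⊓ Subgroup.centralizer {b} ≤ Subgroup.centralizer {a * b} := by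
      intro c hc
      rw [Subgroup.mem_inf, Subgroup.mem_centralizer_singleton_iff,
        Subgroup.mem_centralizer_singleton_iff] at hc
      rw [Subgroup.mem_centralizer_singleton_iff, mul_assoc, ← hc.2, ← mul_assoc, hc.1, mul_assoc]
    exact Subgroup.finiteIndex_of_le this
  inv_mem' := by
    intro a ha
    rw [Set.mem_ofPred_eq] at ha ⊢
    have : Subgroup.centralizer {a} ≤ Subgroup.centralizer {a⁻¹} := by
      intro c hc
      rw [Subgroup.mem_centralizer_singleton_iff] at hc ⊢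
      rw [eq_inv_mul_iff_mul_eq, ← mul_assoc, ← hc, mul_inv_cancel_right]
    exact Subgroup.finiteIndex_of_le this

theorem mem_FC (x : G) : x ∈ FC G ↔ (Subgroup.centralizer {x}).FiniteIndex := Iff.rfl

theorem FC_normal [Infinite G] (hH : ∀ H : Subgroup G, Infinite H → H.FiniteIndex) :
    (FC G).Normal := by
  constructor
  intro x hx g
  rw [mem_FC] at hx ⊢
  have hinf := infinite_of_finiteIndex _ hx
  apply hH
  refine Infinite.of_injective (fun c : Subgroup.centralizer {x} =>
    (⟨g * (c : G) * g⁻¹, ?_⟩ : Subgroup.centralizer {g * x * g⁻¹})) ?_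
  · rw [Subgroup.mem_centralizer_singleton_iff]
    have hc := Subgroup.mem_centralizer_singleton_iff.mp c.2
    calc g * (c : G) * g⁻¹ * (g * x * g⁻¹) = g * ((c : G) * x) * g⁻¹ := by group
      _ = g * (x * (c : G)) * g⁻¹ := by rw [hc]
      _ = _ := by group
  · intro c d hcd
    have := congrArg Subtype.val hcd
    simp only [mul_left_inj, mul_right_inj] at this
    exact Subtype.ext this

/-- If every infinite subgroup has finite index and the FC-centre is infinite,
there is an infinite abelian subgroup. -/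
theorem exists_abelian [Infinite G] (hF : Infinite (FC G))
    (hH : ∀ H : Subgroup G, Infinite H → H.FiniteIndex) :
    ∃ M : Subgroup G, Infinite M ∧ ∀ x ∈ M, ∀ y ∈ M, x * y = y * x := by
  classical
  -- a maximal commuting subset of the FC-centre
  obtain ⟨S, hS⟩ := zorn_subset {S : Set G | S ⊆ FC G ∧ ∀ x ∈ S, ∀ y ∈ S, x * y = y * x} (by
    intro c hc hchain
    refine ⟨⋃₀ c, ⟨?_, ?_⟩, fun s hs => Set.subset_sUnion_of_mem hs⟩
    · exact Set.sUnion_subset fun s hs => (hc hs).1
    · rintro x ⟨s, hs, hx⟩ y ⟨t, ht, hy⟩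
      rcases hchain.total hs ht with h | h
      · exact (hc ht).2 x (h hx) y hy
      · exact (hc hs).2 x hx y (h hy))
  have hS1 : S ⊆ FC G := hS.prop.1
  have hS2 : ∀ x ∈ S, ∀ y ∈ S, x * y = y * x := hS.prop.2
  have hSinf : S.Infinite := by
    intro hfin
    have hfi : (FC G).FiniteIndex := hH _ hF
    have hci : (⨅ g ∈ hfin.toFinset, Subgroup.centralizer {g}).FiniteIndex := by
      apply Subgroup.finiteIndex_iInf'
      intro i hi
      exact hS1 ((Set.Finite.mem_toFinset _).mp hi)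
    have hinf : Infinite ((FC G) ⊓ (⨅ g ∈ hfin.toFinset, Subgroup.centralizer {g}) :
        Subgroup G) := infinite_of_finiteIndex _ inferInstance
    have hset : ((FC G) ⊓ (⨅ g ∈ hfin.toFinset, Subgroup.centralizer {g}) :
        Subgroup G).carrier.Infinite := Set.infinite_coe_iff.mp hinf
    obtain ⟨x, hx, hxS⟩ := hset.exists_notMem_finite hfin
    have hx' : x ∈ ((FC G) ⊓ (⨅ g ∈ hfin.toFinset, Subgroup.centralizer {g}) :
        Subgroup G) := hx
    rw [Subgroup.mem_inf] at hx'
    have hcomm : ∀ s ∈ S, x * s = s * x := by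
      intro s hs
      have := hx'.2
      simp only [Subgroup.mem_iInf, Set.Finite.mem_toFinset] at this
      exact Subgroup.mem_centralizer_singleton_iff.mp (this s hs)
    have hins : insert x S ∈ {S : Set G | S ⊆ FC G ∧ ∀ x ∈ S, ∀ y ∈ S, x * y = y * x} := by
      refine ⟨Set.insert_subset hx'.1 hS1, ?_⟩
      rintro a (rfl | ha) b (rfl | hb)
      · rfl
      · exact hcomm b hb
      · exact (hcomm a ha).symm
      · exact hS2 a ha b hb
    exact hxS (hS.le_of_ge hins (Set.subset_insert _ _) (Set.mem_insert _ _))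
  refine ⟨Subgroup.closure S, ?_, ?_⟩
  · exact (hSinf.mono Subgroup.subset_closure).to_subtype
  · have h1 : Subgroup.closure S ≤ Subgroup.centralizer S := by
      rw [Subgroup.closure_le]
      intro x hx
      show x ∈ Subgroup.centralizer S
      rw [Subgroup.mem_centralizer_iff]
      intro h hh
      exact hS2 h hh x hx
    intro x hx y hy
    have h2 : x ∈ Subgroup.centralizer (Subgroup.closure S : Set G) := by
      rw [Subgroup.centralizer_closure]
      exact h1 hx
    exact (Subgroup.mem_centralizer_iff.mp h2 y hy).symm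

theorem of_abelian_subgroup [Countable G] (M : Subgroup G) (hM : Infinite M)
    (hc : ∀ x ∈ M, ∀ y ∈ M, x * y = y * x) : HasInf G := by
  apply of_subgroup M
  let inst : CommGroup M :=
    { (inferInstance : Group M) with
      mul_comm := fun x y => Subtype.ext (hc x x.2 y y.2) }
  exact of_comm M

/-- If the FC-centre is finite and all infinite subgroups have finite index, then modulo the
FC-centre all centralizers of nontrivial elements are finite. -/
theorem of_FC_finite [Countable G] [Infinite G] (hF : Finite (FC G))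
    (hH : ∀ H : Subgroup G, Infinite H → H.FiniteIndex) : HasInf G := by
  classical
  have hN : (FC G).Normal := FC_normal hH
  have hQ : Infinite (G ⧸ FC G) := by
    by_contra hc
    have h2 : Finite (G ⧸ FC G) := not_infinite_iff_finite.mp hc
    have h3 : Finite G := Finite.of_subgroup_quotient (FC G)
    exact not_finite G
  have hcq : Countable (G ⧸ FC G) := QuotientGroup.mk_surjective.countable
  apply of_quotient (FC G)
  apply greedy
  intro h hh
  obtain ⟨x, rfl⟩ := QuotientGroup.mk_surjective h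
  have hx : x ∉ FC G := fun hc => hh ((QuotientGroup.eq_one_iff x).mpr hc)
  -- the centralizer of `x` modulo the FC-centre, lifted to `G`
  have hfin : {c : G | c * x * c⁻¹ * x⁻¹ ∈ FC G}.Finite := by
    by_contra hinf
    -- some fibre of `c ↦ [c, x]` is infinite
    have hinf' : {c : G | c * x * c⁻¹ * x⁻¹ ∈ FC G}.Infinite := hinf
    have : ∃ f : FC G, {c : G | c * x * c⁻¹ * x⁻¹ = f}.Infinite := by
      by_contra hno
      push Not at hno
      apply hinf'
      have hsub : {c : G | c * x * c⁻¹ * x⁻¹ ∈ FC G} ⊆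
          ⋃ f : FC G, {c : G | c * x * c⁻¹ * x⁻¹ = f} := by
        intro c hc
        exact Set.mem_iUnion.mpr ⟨⟨_, hc⟩, rfl⟩
      exact Set.Finite.subset (Set.finite_iUnion fun f => hno f) hsub
    obtain ⟨f, hf⟩ := this
    obtain ⟨c0, hc0⟩ := hf.nonempty
    have hc0' : c0 * x * c0⁻¹ * x⁻¹ = f := hc0
    apply hx
    rw [mem_FC]
    apply hH
    have himg : ((fun c : G => c0⁻¹ * c) '' {c : G | c * x * c⁻¹ * x⁻¹ = f}).Infinite :=
      hf.image (fun a _ b _ hab => mul_left_cancel hab)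
    have hsub : ((fun c : G => c0⁻¹ * c) '' {c : G | c * x * c⁻¹ * x⁻¹ = f}) ⊆
        (Subgroup.centralizer {x} : Set G) := by
      rintro _ ⟨c, hc, rfl⟩
      have hc' : c * x * c⁻¹ * x⁻¹ = f := hc
      show _ ∈ Subgroup.centralizer {x}
      rw [Subgroup.mem_centralizer_singleton_iff]
      have h1 : c * x * c⁻¹ = c0 * x * c0⁻¹ := by
        have := hc'.trans hc0'.symm
        exact mul_right_cancel this
      show c0⁻¹ * c * x = x * (c0⁻¹ * c)
      calc c0⁻¹ * c * x = c0⁻¹ * (c * x * c⁻¹) * c := by group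
        _ = c0⁻¹ * (c0 * x * c0⁻¹) * c := by rw [h1]
        _ = x * (c0⁻¹ * c) := by group
    exact (himg.mono hsub).to_subtype
  -- square roots commute with their square
  have hsub : {c : G ⧸ FC G | c * c = (x : G ⧸ FC G)} ⊆
      (fun c : G => (c : G ⧸ FC G)) '' {c : G | c * x * c⁻¹ * x⁻¹ ∈ FC G} := by
    intro c hc
    have hc' : c * c = (x : G ⧸ FC G) := hc
    obtain ⟨y, rfl⟩ := QuotientGroup.mk_surjective c
    refine ⟨y, ?_, rfl⟩
    show y * x * y⁻¹ * x⁻¹ ∈ FC G
    rw [← QuotientGroup.eq_one_iff]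
    simp only [QuotientGroup.mk_mul, QuotientGroup.mk_inv]
    rw [← hc']
    group
  exact (hfin.image _).subset hsub

/-- Every countably infinite group has an exact factorization into two infinite subsets. -/
theorem result (G : Type u) [Group G] [Countable G] [Infinite G] :
    ∃ A B : Set G, A.Infinite ∧ B.Infinite ∧ IsExactFactorization A B := by
  show HasInf G
  by_cases hH : ∀ H : Subgroup G, Infinite H → H.FiniteIndex
  · by_cases hF : Finite (FC G)
    · exact of_FC_finite hF hH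
    · obtain ⟨M, hM, hc⟩ := exists_abelian (not_finite_iff_infinite.mp hF) hH
      exact of_abelian_subgroup M hM hc
  · push Not at hH
    obtain ⟨H, h1, h2⟩ := hH
    refine of_infinite_index H h1 ?_
    by_contra hc
    have h3 : Finite (G ⧸ H) := not_infinite_iff_finite.mp hc
    exact h2 Subgroup.finiteIndex_of_finite_quotient

end Main

end Pool.Agent.Results.MP_b3a091_al.InfiniteFactors
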